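import Pool.Agent.MY12.Pend4
import Pool.Agent.MY12.Empty
import Pool.Agent.MY12.Spider
import Pool.Agent.MY12.Spider4
import Pool.Agent.MY12.CritGen

/-! MP_49ba35_co. Generalized Mycielskians with distinguishing index two: graphs all of whose twins
are pendant. -/

namespace Pool.Agent.Results.MP_49ba35_co.PendantTwins

open Pool.Agent.MY12

/-- The pendant neighbours of v: the vertices whose only neighbour is v. -/
def leaves {V : Type} (G : SimpleGraph V) (v : V) : Set V :=
  {x | G.Adj v x ∧ ∀ y, G.Adj x y → y = v}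

theorem class_le {V : Type} [Finite V] {G : SimpleGraph V} (hI : NoIso G) (hP : PendTwins G)
    {m : ℕ} (hm : 1 ≤ m) (h : ∀ v, (leaves G v).ncard ≤ m) (u : V) :
    {v | ∀ x, G.Adj u x ↔ G.Adj v x}.ncard ≤ m := by
  by_cases hu : ∃ u', u ≠ u' ∧ ∀ x, G.Adj u x ↔ G.Adj u' x
  · obtain ⟨u', hne, htw⟩ := hu
    obtain ⟨p, hp⟩ := hI u
    refine le_trans (Set.ncard_le_ncard ?_ (Set.toFinite _)) (h p)
    intro v hv
    have hv' : ∀ x, G.Adj u x ↔ G.Adj v x := hv
    refine ⟨((hv' p).1 hp).symm, ?_⟩
    intro y hy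
    exact hP u u' hne htw y p ((hv' y).2 hy) hp
  · push Not at hu
    refine le_trans ?_ hm
    rw [Set.ncard_le_one_iff]
    have key : ∀ v, (∀ x, G.Adj u x ↔ G.Adj v x) → u = v := by
      intro v hv
      by_contra hne
      obtain ⟨x, hx⟩ := hu v hne
      rcases hx with hx | hx
      · exact hx.2 ((hv x).1 hx.1)
      · exact hx.1 ((hv x).2 hx.2)
    intro a b ha hb
    rw [← key a ha, ← key b hb]

/-- Let G have no isolated vertex, not be a star, and have no twins except pendant vertices at the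
same vertex. T(G) is empty if some vertex has five pendant neighbours; T(G) contains t if Aut(G) is
nontrivial, no vertex has more than three (for connected G: four) pendant neighbours and the degrees
are at most (4^(t+1) - 2 - s)², where s ≤ 2·4^t - 1 bounds the number of components isomorphic to a
given one (for connected G with four pendant neighbours: at most 4^(t+1) - 3). Both degree bounds
are close to best possible, as the two kinds of spiders show. -/
theorem result :
    (∀ (V : Type) [Fintype V] [Nonempty V] (G : SimpleGraph V), NoIso G → NoCentre G →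
      PendTwins G →
      ((∃ v, 5 ≤ (leaves G v).ncard) → T G = ∅) ∧
      (∀ t s, 1 ≤ t → (∃ σ : G ≃g G, σ ≠ RelIso.refl _) → s ≤ 2 * 4 ^ t - 1 →
        (∀ c : G.ConnectedComponent,
          {c' : G.ConnectedComponent | Nonempty (c.toSimpleGraph ≃g c'.toSimpleGraph)}.ncard ≤ s) →
        (∀ v, (leaves G v).ncard ≤ 3) →
        (∀ v, (G.neighborSet v).ncard ≤ (4 ^ (t + 1) - 2 - s) ^ 2) → t ∈ T G) ∧
      (∀ t, 1 ≤ t → (∃ σ : G ≃g G, σ ≠ RelIso.refl _) → G.Connected →
        (∀ v, (leaves G v).ncard ≤ 4) →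
        (∀ v, (G.neighborSet v).ncard ≤ 4 ^ (t + 1) - 3) → t ∈ T G)) ∧
    (∀ m, 2 ≤ m → T (spider m) = {t | 1 ≤ t ∧ m ≤ 16 ^ (t + 1)}) ∧
    (∀ m, 2 ≤ m → T (spider4 m) = {t | 1 ≤ t ∧ m ≤ 4 ^ (t + 1)}) := by
  refine ⟨?_, fun m hm => spider_T hm, fun m hm => spider4_T hm⟩
  intro V _ _ G hI hC hP
  have hn := card_of_noCentre G hC
  refine ⟨?_, ?_, ?_⟩
  · rintro ⟨v, hv⟩
    have hne : (leaves G v).Nonempty := by
      rw [← Set.ncard_pos (Set.toFinite _)]
      omega
    obtain ⟨u, hu⟩ := hne
    have hN : G.neighborSet u = {v} := by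
      ext y
      simp only [SimpleGraph.mem_neighborSet, Set.mem_singleton_iff]
      exact ⟨fun h => hu.2 y h, fun h => h ▸ hu.1.symm⟩
    have hcl : (leaves G v).ncard ≤ {x | ∀ y, G.Adj u y ↔ G.Adj x y}.ncard := by
      apply Set.ncard_le_ncard _ (Set.toFinite _)
      intro x hx y
      constructor
      · intro h
        rw [hu.2 y h]
        exact hx.1.symm
      · intro h
        rw [hx.2 y h]
        exact hu.1.symm
    ext t
    simp only [Set.mem_empty_iff_false, iff_false]
    rintro ⟨ht, h2⟩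
    refine no_dist G u ?_ ht h2.1
    rw [hN, Set.ncard_singleton]
    omega
  · intro t s ht hσ hs hκ h3 hΔ
    exact mem_T_of_dist G ht hσ
      (pend3 G hI hC hn hP (class_le hI hP (by norm_num) h3) ht hs hκ hΔ)
  · intro t ht hσ hconn h4 hΔ
    exact mem_T_of_dist G ht hσ
      (pend4 G hI hconn hC hP (class_le hI hP (by norm_num) h4) ht hΔ)

end Pool.Agent.Results.MP_49ba35_co.PendantTwins
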