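import Pool.Agent.MY12.Cor

/-! MP_49ba35_co. Generalized Mycielskians with distinguishing index two: twin-free graphs of small
distinguishing index or distinguishing number. -/

namespace Pool.Agent.Results.MP_49ba35_co.SmallIndex

open Pool.Agent.MY12

/-- Let G be a finite twin-free graph with at least three vertices, without isolated vertices, with a
nontrivial automorphism. Then T(G) is an up-set and contains every t ≥ 1 with D'(G) ≤ 4^t + 2^t or
D(G) ≤ 2^(t+1). In particular T(G) is the set of all t ≥ 1 if D'(G) ≤ 6 or D(G) ≤ 4. -/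
theorem result (V : Type) [Fintype V] (G : SimpleGraph V) (hT : TwinFree G) (hI : NoIso G)
    (hn : 3 ≤ Fintype.card V) (hσ : ∃ σ : G ≃g G, σ ≠ RelIso.refl _) :
    (∀ t t', t ≤ t' → t ∈ T G → t' ∈ T G) ∧
    (∀ t q, 1 ≤ t → q ≤ 4 ^ t + 2 ^ t → EdgeDist G q → t ∈ T G) ∧
    (∀ t q, 1 ≤ t → q ≤ 2 ^ (t + 1) → VertDist G q → t ∈ T G) := by
  refine ⟨?_, ?_, ?_⟩
  · intro t t' htt' ht
    rw [mem_T_iff G hT hI hn] at ht ⊢
    exact ⟨by omega, ht.2.1, deco_mono G htt' ht.2.2⟩
  · intro t q ht hq h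
    rw [mem_T_iff G hT hI hn]
    exact ⟨ht, hσ, deco_of_edge G hq h⟩
  · intro t q ht hq h
    rw [mem_T_iff G hT hI hn]
    exact ⟨ht, hσ, deco_of_vert G hI hq h⟩

end Pool.Agent.Results.MP_49ba35_co.SmallIndex
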