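import Pool.Agent.MY12.Dich4
import Pool.Agent.MY12.K14
import Pool.Agent.MY12.StarAut
import Pool.Agent.MY12.Star1
import Pool.Agent.MY12.Star4

/-! MP_49ba35_co. Generalized Mycielskians with distinguishing index two: the dichotomy for all
finite graphs. -/

namespace Pool.Agent.Results.MP_49ba35_co.TwinDichotomy

open Pool.Agent.MY12

/-- Some vertex u lies in a class of more than 2^(deg u + 1) vertices with the same neighbours, or
three components of G are isomorphic to K_{1,4}, or G itself is K_{1,4}. -/
def Crowded {V : Type} (G : SimpleGraph V) : Prop :=
  (∃ u, 2 ^ ((G.neighborSet u).ncard + 1) < (twins G u).ncard) ∨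
    (∃ c : Fin 3 → V, Function.Injective c ∧ ∀ i, Centre4 G (c i)) ∨
    ∃ u, Centre4 G u ∧ ∀ v, v = u ∨ G.Adj u v

/-- The set T(G) for every finite graph G: if G has an isolated vertex then T(G) is contained in
{1}; if G has no isolated vertex and is crowded or has no nontrivial automorphism then T(G) is empty;
in all other cases T(G) contains all t ≥ 2L + 1 as soon as every orbit of Aut(G) meets at most 2^L
classes of twins, or s + Δ(G)² ≤ 2^L, where each component of G is isomorphic to at most s
components. So T(G) contains all t ≥ 2⌈log₂ |V|⌉ + 1, all t ≥ 2⌈log₂ (Δ² + 1)⌉ + 1 if G is connected,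
and all t ≥ 1 if every automorphism maps each vertex to one of its twins. -/
theorem result (V : Type) [Fintype V] (G : SimpleGraph V) :
    ((∃ u, ∀ v, ¬ G.Adj u v) → T G ⊆ {1}) ∧
    (NoIso G → (Crowded G ∨ ∀ σ : G ≃g G, σ = RelIso.refl _) → T G = ∅) ∧
    (NoIso G → ¬ Crowded G → (∃ σ : G ≃g G, σ ≠ RelIso.refl _) →
      ∀ L, ((∀ u, (orbTw G u).ncard ≤ 2 ^ L) ∨
        ∃ s D, (∀ c : G.ConnectedComponent,
            {c' : G.ConnectedComponent |
              Nonempty (c.toSimpleGraph ≃g c'.toSimpleGraph)}.ncard ≤ s) ∧
          (∀ v, (G.neighborSet v).ncard ≤ D) ∧ s + D ^ 2 ≤ 2 ^ L) →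
        ∀ t, 2 * L + 1 ≤ t → t ∈ T G) := by
  refine ⟨fun ⟨u, hu⟩ => T_isol G u hu, ?_, ?_⟩
  · rintro hI (h | h)
    · rcases h with ⟨u, hu⟩ | ⟨c, hc, hc4⟩ | ⟨u, hu, huv⟩
      · ext t
        simp only [Set.mem_empty_iff_false, iff_false]
        rintro ⟨ht, h2⟩
        exact no_dist G u hu ht h2.1
      · ext t
        simp only [Set.mem_empty_iff_false, iff_false]
        rintro ⟨ht, h2⟩
        exact no_dist_k14 G c hc (fun i => (hc4 i).1) (fun i => (hc4 i).2) ht h2.1
      · apply star4 G hI u _ hu.1
        intro a b hab
        rcases huv a with h1 | h1
        · exact Or.inl h1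
        · exact Or.inr (hu.2 a h1 b hab)
    · exact T_trivial G hI h
  · intro hI h hσ L hL t ht
    have hV : Nonempty V := by
      by_contra hV
      rw [not_nonempty_iff] at hV
      obtain ⟨σ, hσ⟩ := hσ
      apply hσ
      apply RelIso.ext
      intro x
      exact hV.elim x
    by_cases hC : NoCentre G
    · have hn := card_of_noCentre G hC
      rw [mem_T_gen G hI hC hn]
      have hcl : ∀ u, (twins G u).ncard ≤ 2 ^ ((G.neighborSet u).ncard + 1) := by
        intro u
        by_contra hu
        exact h (Or.inl ⟨u, by omega⟩)
      have hbad : ∀ a b c, Centre4 G a → Centre4 G b → Centre4 G c →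
          a = b ∨ a = c ∨ b = c := by
        intro a b c ha hb hc
        by_contra hne
        push Not at hne
        refine h (Or.inr (Or.inl ⟨![a, b, c], ?_, ?_⟩))
        · intro i j hij
          fin_cases i <;> fin_cases j <;> simp_all
        · intro i
          fin_cases i
          · exact ha
          · exact hb
          · exact hc
      refine ⟨by omega, hσ, ?_⟩
      rcases hL with hL | ⟨s, D, hκ, hD, hs⟩
      · exact dich' hI hcl hbad hL ht
      · exact dich'' hI hcl hbad hκ hD hs ht
    · unfold NoCentre at hC
      push Not at hC
      obtain ⟨c, hc'⟩ := hC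
      have hc : ∀ u v, G.Adj u v → u = c ∨ v = c := by
        intro u v huv
        by_cases hu : u = c
        · exact Or.inl hu
        · exact Or.inr (hc' u v huv hu)
      have hleaf : ∀ v, v ≠ c → G.Adj c v ∧ ∀ w, G.Adj v w → w = c := by
        intro v hv
        have h1 : ∀ w, G.Adj v w → w = c := fun w hw => (hc v w hw).resolve_left hv
        obtain ⟨w, hw⟩ := hI v
        refine ⟨?_, h1⟩
        rw [h1 w hw] at hw
        exact hw.symm
      obtain ⟨l, hl⟩ := hI c
      have hm1 : 1 ≤ (G.neighborSet c).ncard := by
        rw [Nat.one_le_iff_ne_zero, ← Nat.pos_iff_ne_zero, Set.ncard_pos (Set.toFinite _)]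
        exact ⟨l, hl⟩
      rcases Nat.lt_or_ge (G.neighborSet c).ncard 5 with h5 | h5
      · by_cases h4 : (G.neighborSet c).ncard = 4
        · exfalso
          apply h
          refine Or.inr (Or.inr ⟨c, ⟨h4, fun v hv => (hleaf v hv.ne').2⟩, ?_⟩)
          intro v
          by_cases hv : v = c
          · exact Or.inl hv
          · exact Or.inr (hleaf v hv).1
        · by_cases h1 : (G.neighborSet c).ncard = 1
          · rw [star1 G hI c hc h1]
            show 2 ≤ t
            have hL0 : L ≠ 0 := by
              rintro rfl
              rcases hL with hL | ⟨s, D, hκ, hD, hs⟩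
              swap
              · have e1 := hκ (G.connectedComponentMk c)
                have e2 := hD c
                have e3 : 1 ≤ {c' : G.ConnectedComponent |
                    Nonempty ((G.connectedComponentMk c).toSimpleGraph ≃g
                      c'.toSimpleGraph)}.ncard := by
                  rw [Nat.one_le_iff_ne_zero, ← Nat.pos_iff_ne_zero, Set.ncard_pos (Set.toFinite _)]
                  exact ⟨G.connectedComponentMk c, ⟨RelIso.refl _⟩⟩
                have e4 : 1 ≤ D ^ 2 := Nat.one_le_pow _ _ (by omega)
                rw [pow_zero] at hs
                omega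
              obtain ⟨σ, hσ⟩ := hσ
              obtain ⟨z, hz⟩ := Set.ncard_eq_one.1 h1
              have hall : ∀ v, v = c ∨ v = l := by
                intro v
                by_cases hv : v = c
                · exact Or.inl hv
                · have e1 : v ∈ G.neighborSet c := (hleaf v hv).1
                  have e2 : l ∈ G.neighborSet c := hl
                  rw [hz, Set.mem_singleton_iff] at e1 e2
                  exact Or.inr (e1.trans e2.symm)
              have hcl : σ c ≠ c := by
                intro hcc
                apply hσ
                apply RelIso.ext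
                intro v
                rcases hall v with rfl | rfl
                · exact hcc
                · rcases hall (σ v) with h6 | h6
                  · exact absurd (σ.injective (h6.trans hcc.symm)) hl.ne'
                  · exact h6
              have hle := hL c
              rw [pow_zero, Set.ncard_le_one_iff] at hle
              have h7 : twins G (σ c) = twins G c := hle ⟨σ, rfl⟩ ⟨RelIso.refl _, rfl⟩
              rw [(hall (σ c)).resolve_left hcl, twins_eq] at h7
              exact G.loopless.irrefl c ((h7 c).1 hl.symm)
            omega
          · rw [star23 G hI c hc (by omega)]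
            show 1 ≤ t
            omega
      · exfalso
        apply h
        refine Or.inl ⟨l, ?_⟩
        have hN : G.neighborSet l = {c} := by
          ext y
          simp only [SimpleGraph.mem_neighborSet, Set.mem_singleton_iff]
          exact ⟨fun h => (hleaf l hl.ne').2 y h, fun h => h ▸ hl.symm⟩
        have hcl : (G.neighborSet c).ncard ≤ (twins G l).ncard := by
          apply Set.ncard_le_ncard _ (Set.toFinite _)
          intro x hx y
          have hx' : G.Adj c x := hx
          constructor
          · intro h
            rw [(hleaf l hl.ne').2 y h]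
            exact hx'.symm
          · intro h
            rw [(hleaf x hx'.ne').2 y h]
            exact hl.symm
        rw [hN, Set.ncard_singleton]
        omega

end Pool.Agent.Results.MP_49ba35_co.TwinDichotomy
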